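import Mathlib

/-!
# Points `(x, y, w, λ)` and forms not vanishing on the hyperplane
-/

set_option autoImplicit false

namespace Pool.Agent.W222.ABCD

open MvPolynomial

/-- the point `(x, y, w, lam)` -/
def pt {R : Type*} {k : ℕ} (x y w : R) (lam : Fin k → R) : Fin (k + 3) → R :=
  Matrix.vecCons x (Matrix.vecCons y (Matrix.vecCons w lam))

theorem pt_sum {R : Type*} [AddCommMonoid R] {k : ℕ} (x y w : R) (lam : Fin k → R) :
    ∑ i, pt x y w lam i = x + (y + (w + ∑ i, lam i)) := by
  simp [pt, Fin.sum_univ_succ]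

theorem comp_pt {R S : Type*} (f : R → S) {k : ℕ} (x y w : R) (lam : Fin k → R) :
    (fun i => f (pt x y w lam i)) = pt (f x) (f y) (f w) (fun i => f (lam i)) := by
  funext i
  refine Fin.cases rfl (fun i => ?_) i
  refine Fin.cases rfl (fun i => ?_) i
  refine Fin.cases rfl (fun i => ?_) i
  rfl

theorem eta_pt {R : Type*} {k : ℕ} (w : Fin (k + 3) → R) :
    pt (w 0) (w 1) (w 2) (fun i => w i.succ.succ.succ) = w := by
  funext i
  refine Fin.cases rfl (fun i => ?_) i
  refine Fin.cases rfl (fun i => ?_) i
  refine Fin.cases rfl (fun i => ?_) i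
  rfl

theorem eval_mul_form {R : Type*} [CommRing R] {σ : Type*} [Fintype σ] {D : ℕ}
    {F : MvPolynomial σ R} (hF : F.IsHomogeneous D) (c : R) (z : σ → R) :
    eval (fun i => c * z i) F = c ^ D * eval z F := by
  classical
  rw [eval_eq', eval_eq', Finset.mul_sum]
  refine Finset.sum_congr rfl fun d hd => ?_
  have hd' : d.degree = D := by
    rw [Finsupp.degree_eq_weight_one]
    exact hF (mem_support_iff.1 hd)
  have h1 : ∏ i, (c * z i) ^ d i = c ^ D * ∏ i, z i ^ d i := by
    simp_rw [mul_pow]
    rw [Finset.prod_mul_distrib, Finset.prod_pow_eq_pow_sum]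
    congr 2
    rw [← hd', Finsupp.degree_eq_sum]
  rw [h1]
  ring

variable {L : Type*} [Field L] [CharZero L]

theorem infinite_range_rat : (Set.range (fun q : ℚ => (q : L))).Infinite :=
  Set.infinite_range_of_injective Rat.cast_injective

/-- A form which does not vanish identically on the hyperplane `∑ z_i = 0` does not vanish
identically on some slice `z = (u, - u - v - 1, v, λ)` with rational `λ`, `∑ λ_i = 1`. -/
theorem exists_lam {k D : ℕ} (hk : 1 ≤ k) (F : MvPolynomial (Fin (k + 3)) L)
    (hF : F.IsHomogeneous D) (w : Fin (k + 3) → L) (hw : ∑ i, w i = 0) (hFw : eval w F ≠ 0) :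
    ∃ lam : Fin k → ℚ, ∑ i, lam i = 1 ∧ (∀ i, lam i ≠ 0) ∧
      ∃ u v : L, eval (pt u (-u - v - 1) v (fun i => (lam i : L))) F ≠ 0 := by
  classical
  set f : Fin (k + 3) → MvPolynomial (Fin (k + 2)) L :=
    pt (X 0) (-∑ j, X j) (X 1) (fun i => X i.succ.succ) with hf
  set F' : MvPolynomial (Fin (k + 2)) L := bind₁ f F with hF'
  have hev : ∀ x : Fin (k + 2) → L,
      eval x F' = eval (pt (x 0) (-∑ j, x j) (x 1) (fun i => x i.succ.succ)) F := by
    intro x
    rw [hF', eval, eval₂Hom_bind₁, hf]
    congr 2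
    have := comp_pt (eval x) (X 0 : MvPolynomial (Fin (k + 2)) L) (-∑ j, X j) (X 1)
      (fun i => X i.succ.succ)
    simp only [map_neg, map_sum, eval_X] at this
    exact this
  have h1 : F' ≠ 0 := by
    intro h0
    apply hFw
    have := hev (Fin.cons (w 0) (fun i => w i.succ.succ))
    rw [h0, map_zero] at this
    rw [this]
    congr 2
    have hw1 : w 1 = -∑ j, (Fin.cons (w 0) (fun i => w i.succ.succ) : Fin (k + 2) → L) j := by
      rw [Fin.sum_univ_succ] at hw ⊢
      rw [Fin.sum_univ_succ] at hw
      simp only [Fin.cons_zero, Fin.cons_succ]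
      have e : w (Fin.succ 0) = w 1 := rfl
      rw [e] at hw
      linear_combination hw
    rw [← hw1]
    exact (eta_pt w).symm
  set S : MvPolynomial (Fin (k + 2)) L := ∑ i : Fin k, X i.succ.succ with hS
  have h2 : S ≠ 0 := by
    intro h0
    have := congrArg (eval (fun j => if j = (⟨0, hk⟩ : Fin k).succ.succ then (1 : L) else 0)) h0
    rw [hS, map_sum, map_zero] at this
    simp at this
    exact this (x := ⟨0, hk⟩) rfl
  have h3 : (∏ i : Fin k, X i.succ.succ : MvPolynomial (Fin (k + 2)) L) ≠ 0 :=
    Finset.prod_ne_zero_iff.2 fun i _ => X_ne_zero _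
  have hP : F' * (S * ∏ i : Fin k, X i.succ.succ) ≠ 0 := mul_ne_zero h1 (mul_ne_zero h2 h3)
  have hex : ∃ y : Fin (k + 2) → ℚ,
      eval (fun j => (y j : L)) (F' * (S * ∏ i : Fin k, X i.succ.succ)) ≠ 0 := by
    by_contra hcon
    push Not at hcon
    apply hP
    refine funext_set (fun _ => Set.range (fun q : ℚ => (q : L))) (fun _ => infinite_range_rat) ?_
    intro x hx
    have hx' : ∀ j, ∃ q : ℚ, (q : L) = x j := fun j => by simpa using hx j (Set.mem_univ _)
    choose y hy using hx'
    have : (fun j => (y j : L)) = x := funext hy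
    rw [← this, hcon y, map_zero]
  obtain ⟨y, hy⟩ := hex
  rw [map_mul, map_mul, map_prod] at hy
  have hy1 : eval (fun j => (y j : L)) F' ≠ 0 := left_ne_zero_of_mul hy
  have hy2 : eval (fun j => (y j : L)) S ≠ 0 := left_ne_zero_of_mul (right_ne_zero_of_mul hy)
  have hy3 : ∀ i : Fin k, y i.succ.succ ≠ 0 := by
    have := right_ne_zero_of_mul (right_ne_zero_of_mul hy)
    rw [Finset.prod_ne_zero_iff] at this
    intro i h0
    exact this i (Finset.mem_univ _) (by rw [eval_X, h0, Rat.cast_zero])
  set s : ℚ := ∑ i : Fin k, y i.succ.succ with hs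
  have hs0 : s ≠ 0 := by
    intro h0
    apply hy2
    rw [hS, map_sum]
    simp only [eval_X]
    rw [← Rat.cast_sum, ← hs, h0, Rat.cast_zero]
  have hsL : (s : L) ≠ 0 := by exact_mod_cast hs0
  refine ⟨fun i => y i.succ.succ / s, ?_, fun i => div_ne_zero (hy3 i) hs0,
    (y 0 : L) / s, (y 1 : L) / s, ?_⟩
  · rw [← Finset.sum_div, ← hs, div_self hs0]
  · rw [hev] at hy1
    have e : (fun i => (s : L) * pt ((y 0 : L) / s) (-((y 0 : L) / s) - (y 1 : L) / s - 1)
        ((y 1 : L) / s) (fun i => ((y i.succ.succ / s : ℚ) : L)) i) =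
        pt ((y 0 : L)) (-∑ j, (y j : L)) (y 1 : L) (fun i => (y i.succ.succ : L)) := by
      rw [comp_pt]
      congr 1
      · field_simp
      · have hsum : ∑ j, (y j : L) = y 0 + (y 1 + s) := by
          rw [Fin.sum_univ_succ, Fin.sum_univ_succ, hs]
          push_cast
          rfl
        rw [hsum]
        field_simp
        ring
      · field_simp
      · funext i
        push_cast
        field_simp
    rw [← e, eval_mul_form hF] at hy1
    exact right_ne_zero_of_mul hy1

theorem infinite_neg_pow (m : ℕ) (hm : 0 < m) :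
    (Set.range (fun q : ℕ => -((q : L) ^ m))).Infinite := by
  refine Set.infinite_range_of_injective fun a b h => ?_
  have h' : ((a ^ m : ℕ) : L) = ((b ^ m : ℕ) : L) := by
    push_cast
    exact neg_injective h
  exact Nat.pow_left_injective hm.ne' (Nat.cast_injective h')

/-- **Counting lemma.** A form of degree `D` not vanishing on the slice
`z = (u, - u - v - 1, v, λ)` does not vanish on one of the curves
`(x² / 4, - x² / 4 + t ^ m - 1, - t ^ m, λ)`, `x ∈ I`, if the squares of the members of `I`
are pairwise distinct and `D < |I|`. -/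
theorem exists_curve {k D m : ℕ} (hm : 0 < m) (F : MvPolynomial (Fin (k + 3)) L)
    (hF : F.totalDegree ≤ D) (lam : Fin k → L) (u v : L)
    (hFuv : eval (pt u (-u - v - 1) v lam) F ≠ 0)
    {ι : Type*} (I : Finset ι) (x : ι → Polynomial L)
    (hx : ∀ i ∈ I, ∀ j ∈ I, x i ^ 2 = x j ^ 2 → i = j) (hD : D < I.card) :
    ∃ i ∈ I, aeval (pt (Polynomial.C (1 / 4 : L) * x i ^ 2)
      (-(Polynomial.C (1 / 4 : L) * x i ^ 2) + Polynomial.X ^ m - 1)
      (-Polynomial.X ^ m) (fun i => Polynomial.C (lam i))) F ≠ 0 := by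
  classical
  -- a point of the slice with `v = - t ^ m`
  have hex : ∃ (u' : ℚ) (t : ℕ), eval (pt (u' : L) (-u' - (-((t : L) ^ m)) - 1)
      (-((t : L) ^ m)) lam) F ≠ 0 := by
    set g : Fin (k + 3) → MvPolynomial (Fin 2) L :=
      pt (X 0) (-X 0 - X 1 - 1) (X 1) (fun i => C (lam i)) with hg
    have hev : ∀ y : Fin 2 → L, eval y (bind₁ g F) =
        eval (pt (y 0) (-y 0 - y 1 - 1) (y 1) lam) F := by
      intro y
      rw [eval, eval₂Hom_bind₁, hg]
      congr 2
      have := comp_pt (eval y) (X 0 : MvPolynomial (Fin 2) L) (-X 0 - X 1 - 1) (X 1)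
        (fun i => C (lam i))
      simp only [map_neg, map_sub, map_one, eval_X, eval_C] at this
      exact this
    have hne : bind₁ g F ≠ 0 := by
      intro h0
      apply hFuv
      have := hev ![u, v]
      rw [h0, map_zero] at this
      exact this.symm
    by_contra hcon
    push Not at hcon
    apply hne
    refine funext_set (Fin.cons (Set.range (fun q : ℚ => (q : L)))
      (fun _ => Set.range (fun q : ℕ => -((q : L) ^ m)))) ?_ ?_
    · intro i
      refine Fin.cases ?_ (fun i => ?_) i
      · exact infinite_range_rat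
      · exact infinite_neg_pow m hm
    · intro y hy
      have h0 := hy 0 (Set.mem_univ _)
      have h1 := hy 1 (Set.mem_univ _)
      obtain ⟨q, hq⟩ : ∃ q : ℚ, (q : L) = y 0 := by simpa using h0
      obtain ⟨t, ht⟩ : ∃ t : ℕ, -((t : L) ^ m) = y 1 := by
        have h1' : y 1 ∈ Set.range (fun q : ℕ => -((q : L) ^ m)) := h1
        simpa using h1'
      rw [hev, ← hq, ← ht, map_zero]
      exact hcon q t
  obtain ⟨u', t, hut⟩ := hex
  by_contra hcon
  push Not at hcon
  -- the polynomial in `U` with coefficients in `L[T]`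
  set FF : MvPolynomial (Fin (k + 3)) (Polynomial L) := map Polynomial.C F with hFF
  set g : Fin (k + 3) → Polynomial (Polynomial L) :=
    pt Polynomial.X (-Polynomial.X - Polynomial.C (-Polynomial.X ^ m) - 1)
      (Polynomial.C (-Polynomial.X ^ m)) (fun i => Polynomial.C (Polynomial.C (lam i))) with hg
  set Q : Polynomial (Polynomial L) := aeval g FF with hQ
  have hQdeg : Q.natDegree ≤ D := by
    have h1 : FF.totalDegree ≤ D :=
      (Finset.sup_mono (support_map_subset _ _)).trans hF
    have h2 : ∀ i, (g i).natDegree ≤ 1 := by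
      intro i
      refine Fin.cases ?_ (fun i => ?_) i
      · show (Polynomial.X : Polynomial (Polynomial L)).natDegree ≤ 1
        exact Polynomial.natDegree_X_le
      refine Fin.cases ?_ (fun i => ?_) i
      · show (-Polynomial.X - Polynomial.C (-Polynomial.X ^ m) - 1 :
          Polynomial (Polynomial L)).natDegree ≤ 1
        compute_degree
      refine Fin.cases ?_ (fun i => ?_) i
      · show (Polynomial.C (-Polynomial.X ^ m) : Polynomial (Polynomial L)).natDegree ≤ 1
        rw [Polynomial.natDegree_C]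
        exact zero_le_one
      · show (Polynomial.C (Polynomial.C (lam i)) : Polynomial (Polynomial L)).natDegree ≤ 1
        rw [Polynomial.natDegree_C]
        exact zero_le_one
    have h3 := aeval_natDegree_le FF h1 g h2
    rwa [mul_one] at h3
  have hQeval : ∀ r : Polynomial L, Q.eval r =
      aeval (pt r (-r - (-Polynomial.X ^ m) - 1) (-Polynomial.X ^ m)
        (fun i => Polynomial.C (lam i))) F := by
    intro r
    have h1 : Q.eval r = eval₂ ((Polynomial.evalRingHom r).comp
        (Polynomial.C.comp Polynomial.C)) (fun i => (g i).eval r) F := by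
      rw [hQ, hFF, aeval_def, eval₂_map, ← Polynomial.coe_evalRingHom, eval₂_comp_left]
      rfl
    rw [h1, aeval_def]
    congr 1
    · ext a
      simp
    · rw [hg]
      have := comp_pt (Polynomial.eval r) (Polynomial.X : Polynomial (Polynomial L))
        (-Polynomial.X - Polynomial.C (-Polynomial.X ^ m) - 1) (Polynomial.C (-Polynomial.X ^ m))
        (fun i => Polynomial.C (Polynomial.C (lam i)))
      rw [this]
      simp
  have hQ0 : Q ≠ 0 := by
    intro h0
    apply hut
    have h1 := hQeval (Polynomial.C (u' : L))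
    rw [h0, Polynomial.eval_zero] at h1
    have h2 := congrArg (Polynomial.eval (t : L)) h1.symm
    rw [Polynomial.eval_zero, ← Polynomial.coe_evalRingHom, aeval_def, eval₂_comp_left] at h2
    rw [← h2, eval, coe_eval₂Hom]
    congr 1
    · ext a
      simp
    · have := comp_pt (Polynomial.evalRingHom (t : L)) (Polynomial.C (u' : L))
        (-Polynomial.C (u' : L) - (-Polynomial.X ^ m) - 1) (-Polynomial.X ^ m)
        (fun i => Polynomial.C (lam i))
      have h3 : (⇑(Polynomial.evalRingHom (t : L)) ∘ pt (Polynomial.C (u' : L))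
        (-Polynomial.C (u' : L) - (-Polynomial.X ^ m) - 1) (-Polynomial.X ^ m)
        (fun i => Polynomial.C (lam i))) = _ := this
      rw [h3]
      simp
  have hroots : ∀ i ∈ I, Q.IsRoot (Polynomial.C (1 / 4 : L) * x i ^ 2) := by
    intro i hi
    have e : (-(Polynomial.C (1 / 4 : L) * x i ^ 2) - (-Polynomial.X ^ m) - 1 : Polynomial L) =
        -(Polynomial.C (1 / 4 : L) * x i ^ 2) + Polynomial.X ^ m - 1 := by ring
    rw [Polynomial.IsRoot, hQeval, e]
    exact hcon i hi
  have hcard : I.card ≤ Q.roots.toFinset.card := by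
    refine Finset.card_le_card_of_injOn (fun i => Polynomial.C (1 / 4 : L) * x i ^ 2) ?_ ?_
    · intro i hi
      simp only [Finset.mem_coe, Multiset.mem_toFinset]
      rw [Polynomial.mem_roots hQ0]
      exact hroots i hi
    · intro i hi j hj h
      refine hx i hi j hj ?_
      have h4 : (Polynomial.C (1 / 4 : L)) ≠ 0 := by
        rw [Ne, Polynomial.C_eq_zero]
        norm_num
      exact mul_left_cancel₀ h4 h
  have := hcard.trans ((Multiset.toFinset_card_le _).trans (Polynomial.card_roots' Q))
  omega

end Pool.Agent.W222.ABCD
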