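import Mathlib

/-!
# Splitting `X ^ (2 m) - 1` into two monic factors of degree `m`

For odd `m` and a set `E` of divisors of `m`, `A m E * B m E = X ^ (2 m) - 1`.
-/

set_option autoImplicit false

namespace Pool.Agent.W222.ABCD

open Polynomial Finset

/-- product of `Φ_e` (`e ∈ E`) and `Φ_{2e}` (`e ∉ E`) over the divisors `e` of `m` -/
noncomputable def A (m : ℕ) (E : Finset ℕ) : ℤ[X] :=
  ∏ e ∈ m.divisors, if e ∈ E then cyclotomic e ℤ else cyclotomic (2 * e) ℤ

/-- product of `Φ_{2e}` (`e ∈ E`) and `Φ_e` (`e ∉ E`) over the divisors `e` of `m` -/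
noncomputable def B (m : ℕ) (E : Finset ℕ) : ℤ[X] :=
  ∏ e ∈ m.divisors, if e ∈ E then cyclotomic (2 * e) ℤ else cyclotomic e ℤ

theorem divisors_two_mul {m : ℕ} (hm : Odd m) :
    (2 * m).divisors = m.divisors ∪ m.divisors.image (fun e => 2 * e) := by
  have hm0 : m ≠ 0 := by rintro rfl; simp at hm
  ext d
  simp only [Nat.mem_divisors, mem_union, mem_image]
  constructor
  · rintro ⟨hd, -⟩
    rcases Nat.even_or_odd d with he | ho
    · right
      obtain ⟨e, rfl⟩ := he.two_dvd
      exact ⟨e, ⟨Nat.dvd_of_mul_dvd_mul_left two_pos hd, hm0⟩, rfl⟩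
    · left
      refine ⟨?_, hm0⟩
      exact (Nat.Coprime.dvd_mul_left (Nat.coprime_two_right.2 ho)).1 hd
  · rintro (⟨h, -⟩ | ⟨e, ⟨h, -⟩, rfl⟩)
    · exact ⟨h.mul_left 2, by positivity⟩
    · exact ⟨Nat.mul_dvd_mul_left 2 h, by positivity⟩

theorem odd_of_mem {m e : ℕ} (hm : Odd m) (he : e ∈ m.divisors) : Odd e := by
  rw [Nat.mem_divisors] at he
  exact hm.of_dvd_nat he.1

theorem disjoint_two_mul {m : ℕ} (hm : Odd m) :
    Disjoint m.divisors (m.divisors.image (fun e => 2 * e)) := by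
  rw [Finset.disjoint_left]
  intro d hd hd'
  obtain ⟨e, -, rfl⟩ := mem_image.1 hd'
  have := odd_of_mem hm hd
  rw [Nat.odd_iff] at this
  omega

theorem A_mul_B {m : ℕ} (hm : Odd m) (E : Finset ℕ) :
    A m E * B m E = X ^ (2 * m) - 1 := by
  have hm0 : 0 < m := hm.pos
  have h1 : A m E * B m E = ∏ e ∈ m.divisors, (cyclotomic e ℤ * cyclotomic (2 * e) ℤ) := by
    rw [A, B, ← prod_mul_distrib]
    refine prod_congr rfl fun e _ => ?_
    split_ifs
    · rfl
    · rw [mul_comm]
  rw [h1, prod_mul_distrib, ← prod_cyclotomic_eq_X_pow_sub_one (by positivity : 0 < 2 * m),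
    divisors_two_mul hm, prod_union (disjoint_two_mul hm), prod_image]
  intro a _ b _ h
  simpa using h

theorem A_monic (m : ℕ) (E : Finset ℕ) : (A m E).Monic := by
  refine monic_prod_of_monic _ _ fun e _ => ?_
  split_ifs
  · exact cyclotomic.monic _ _
  · exact cyclotomic.monic _ _

theorem B_monic (m : ℕ) (E : Finset ℕ) : (B m E).Monic := by
  refine monic_prod_of_monic _ _ fun e _ => ?_
  split_ifs
  · exact cyclotomic.monic _ _
  · exact cyclotomic.monic _ _

theorem totient_two_mul {e : ℕ} (he : Odd e) : Nat.totient (2 * e) = Nat.totient e := by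
  rw [Nat.totient_mul (Nat.coprime_two_left.2 he)]
  simp

theorem natDegree_A {m : ℕ} (hm : Odd m) (E : Finset ℕ) : (A m E).natDegree = m := by
  rw [A, natDegree_prod_of_monic]
  · conv_rhs => rw [← Nat.sum_totient m]
    refine sum_congr rfl fun e he => ?_
    split_ifs
    · rw [natDegree_cyclotomic]
    · rw [natDegree_cyclotomic, totient_two_mul (odd_of_mem hm he)]
  · intro e _
    split_ifs
    · exact cyclotomic.monic _ _
    · exact cyclotomic.monic _ _

theorem natDegree_B {m : ℕ} (hm : Odd m) (E : Finset ℕ) : (B m E).natDegree = m := by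
  rw [B, natDegree_prod_of_monic]
  · conv_rhs => rw [← Nat.sum_totient m]
    refine sum_congr rfl fun e he => ?_
    split_ifs
    · rw [natDegree_cyclotomic, totient_two_mul (odd_of_mem hm he)]
    · rw [natDegree_cyclotomic]
  · intro e _
    split_ifs
    · exact cyclotomic.monic _ _
    · exact cyclotomic.monic _ _

theorem eval_zero_cyc {e : ℕ} (he : 1 < e) : (cyclotomic e ℤ).eval 0 = 1 := by
  rw [← coeff_zero_eq_eval_zero]
  exact cyclotomic_coeff_zero ℤ he

theorem eval_zero_A {m : ℕ} (hm : Odd m) {E : Finset ℕ} (h1 : 1 ∈ E) : (A m E).eval 0 = -1 := by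
  have hm0 : m ≠ 0 := hm.pos.ne'
  rw [A, eval_prod, prod_eq_single 1]
  · simp [h1]
  · intro e he he1
    have : 1 < e := lt_of_le_of_ne (Nat.pos_of_mem_divisors he) (Ne.symm he1)
    split_ifs
    · exact eval_zero_cyc this
    · exact eval_zero_cyc (by omega)
  · intro h
    simp [hm0] at h

theorem eval_zero_B {m : ℕ} (hm : Odd m) {E : Finset ℕ} (h1 : 1 ∈ E) : (B m E).eval 0 = 1 := by
  have hm0 : m ≠ 0 := hm.pos.ne'
  rw [B, eval_prod, prod_eq_single 1]
  · simp [h1]
  · intro e he he1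
    have : 1 < e := lt_of_le_of_ne (Nat.pos_of_mem_divisors he) (Ne.symm he1)
    split_ifs
    · exact eval_zero_cyc (by omega)
    · exact eval_zero_cyc this
  · intro h
    simp [hm0] at h

theorem eval_one_A {m : ℕ} (hm : Odd m) {E : Finset ℕ} (h1 : 1 ∈ E) : (A m E).eval 1 = 0 := by
  have hm0 : m ≠ 0 := hm.pos.ne'
  rw [A, eval_prod]
  refine prod_eq_zero (i := 1) (by simp [hm0]) ?_
  simp [h1]

theorem eval_one_B {m : ℕ} (hm : Odd m) {E : Finset ℕ} (h1 : 1 ∈ E) : (B m E).eval 1 ≠ 0 := by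
  rw [B, eval_prod, prod_ne_zero_iff]
  intro e he
  by_cases he1 : e = 1
  · subst he1
    simp [h1]
  · have h0 : 0 < e := Nat.pos_of_mem_divisors he
    have ho := odd_of_mem hm he
    have h3 : 2 < e := by
      rcases ho with ⟨k, hk⟩
      omega
    split_ifs
    · exact (cyclotomic_pos (by omega) 1).ne'
    · exact (cyclotomic_pos h3 1).ne'

/-- `E` can be recovered from `A m E` -/
theorem A_injOn {m : ℕ} (hm : Odd m) {E E' : Finset ℕ} (hE : E ⊆ m.divisors)
    (h : A m E = A m E') : E ⊆ E' := by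
  intro e he
  by_contra hne
  have hem := hE he
  have h0 : 0 < e := Nat.pos_of_mem_divisors hem
  have hirr := cyclotomic.irreducible h0
  have hdvd : cyclotomic e ℤ ∣ A m E' := by
    rw [← h, A]
    refine dvd_trans ?_ (dvd_prod_of_mem _ hem)
    simp [he]
  rw [A] at hdvd
  obtain ⟨d, hd, hdd⟩ := (Prime.dvd_finsetProd_iff hirr.prime _).1 hdvd
  have hd0 : 0 < d := Nat.pos_of_mem_divisors hd
  have key : ∀ j : ℕ, 0 < j → cyclotomic e ℤ ∣ cyclotomic j ℤ → e = j := by
    intro j hj hdj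
    have := (hirr.dvd_irreducible_iff_associated (cyclotomic.irreducible hj)).1 hdj
    exact cyclotomic_injective (R := ℤ)
      (eq_of_monic_of_associated (cyclotomic.monic e ℤ) (cyclotomic.monic j ℤ) this)
  split_ifs at hdd with hdE
  · have := key d hd0 hdd
    subst this
    exact hne hdE
  · have := key (2 * d) (by positivity) hdd
    have ho := odd_of_mem hm hem
    rw [Nat.odd_iff] at ho
    omega

/-- `X = A + B`, divisible by the variable -/
noncomputable def Xp (m : ℕ) (E : Finset ℕ) : ℤ[X] := A m E + B m E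

/-- `Y = A - B` -/
noncomputable def Yp (m : ℕ) (E : Finset ℕ) : ℤ[X] := A m E - B m E

theorem Xp_sq_sub_Yp_sq {m : ℕ} (hm : Odd m) (E : Finset ℕ) :
    Xp m E ^ 2 - Yp m E ^ 2 = 4 * (X ^ (2 * m) - 1) := by
  rw [← A_mul_B hm E, Xp, Yp]
  ring

theorem Xp_eval_zero {m : ℕ} (hm : Odd m) {E : Finset ℕ} (h1 : 1 ∈ E) :
    (Xp m E).eval 0 = 0 := by
  rw [Xp, eval_add, eval_zero_A hm h1, eval_zero_B hm h1]
  norm_num

theorem Xp_coeff {m : ℕ} (hm : Odd m) (E : Finset ℕ) : (Xp m E).coeff m = 2 := by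
  have h1 : (A m E).coeff m = 1 := by
    have := (A_monic m E).coeff_natDegree
    rwa [natDegree_A hm] at this
  have h2 : (B m E).coeff m = 1 := by
    have := (B_monic m E).coeff_natDegree
    rwa [natDegree_B hm] at this
  rw [Xp, coeff_add, h1, h2]
  norm_num

theorem Xp_natDegree {m : ℕ} (hm : Odd m) (E : Finset ℕ) : (Xp m E).natDegree ≤ m := by
  refine (natDegree_add_le _ _).trans ?_
  rw [natDegree_A hm, natDegree_B hm, max_self]

theorem Yp_natDegree {m : ℕ} (hm : Odd m) (E : Finset ℕ) : (Yp m E).natDegree ≤ m - 1 := by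
  have h1 : (A m E).coeff m = 1 := by
    have := (A_monic m E).coeff_natDegree
    rwa [natDegree_A hm] at this
  have h2 : (B m E).coeff m = 1 := by
    have := (B_monic m E).coeff_natDegree
    rwa [natDegree_B hm] at this
  have h3 : (Yp m E).natDegree ≤ m := by
    refine (natDegree_sub_le _ _).trans ?_
    rw [natDegree_A hm, natDegree_B hm, max_self]
  by_contra hcon
  have h4 : (Yp m E).natDegree = m := by omega
  have h5 : (Yp m E).coeff m = 0 := by rw [Yp, coeff_sub, h1, h2, sub_self]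
  have h6 : Yp m E = 0 := by
    rw [← leadingCoeff_eq_zero, leadingCoeff, h4, h5]
  rw [h6] at hcon
  simp at hcon

/-- the quotient of `Xp` by the variable -/
noncomputable def Xq (m : ℕ) (E : Finset ℕ) : ℤ[X] := (Xp m E).divX

theorem Xp_eq {m : ℕ} (hm : Odd m) {E : Finset ℕ} (h1 : 1 ∈ E) : Xp m E = X * Xq m E := by
  have h := X_mul_divX_add (Xp m E)
  rw [coeff_zero_eq_eval_zero, Xp_eval_zero hm h1, C_0, add_zero] at h
  exact h.symm

theorem Xq_natDegree {m : ℕ} (hm : Odd m) (E : Finset ℕ) : (Xq m E).natDegree ≤ m - 1 := by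
  rw [Xq, natDegree_divX_eq_natDegree_tsub_one]
  exact Nat.sub_le_sub_right (Xp_natDegree hm E) 1

theorem Yp_ne_zero {m : ℕ} (hm : Odd m) {E : Finset ℕ} (h1 : 1 ∈ E) : Yp m E ≠ 0 := by
  intro h
  have h2 : (Yp m E).eval 1 = 0 := by rw [h, eval_zero]
  rw [Yp, eval_sub, eval_one_A hm h1, zero_sub, neg_eq_zero] at h2
  exact eval_one_B hm h1 h2

theorem Xp_ne_zero {m : ℕ} (hm : Odd m) (E : Finset ℕ) : Xp m E ≠ 0 := by
  intro h
  have := Xp_coeff hm E
  rw [h] at this
  simp at this

/-- `E ∋ 1` can be recovered from `(Xp m E) ^ 2` -/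
theorem Xp_sq_inj {m : ℕ} (hm : Odd m) {E E' : Finset ℕ} (hE : E ⊆ m.divisors)
    (hE' : E' ⊆ m.divisors) (h1 : 1 ∈ E) (h1' : 1 ∈ E') (h : Xp m E ^ 2 = Xp m E' ^ 2) :
    E = E' := by
  have hX : Xp m E = Xp m E' := by
    rcases sq_eq_sq_iff_eq_or_eq_neg.1 h with h | h
    · exact h
    · exfalso
      have := congrArg (fun p => coeff p m) h
      simp only [coeff_neg, Xp_coeff hm] at this
      norm_num at this
  have hY2 : Yp m E ^ 2 = Yp m E' ^ 2 := by
    have e1 := Xp_sq_sub_Yp_sq hm E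
    have e2 := Xp_sq_sub_Yp_sq hm E'
    rw [hX] at e1
    linear_combination e2 - e1
  have hA : A m E = A m E' := by
    rcases sq_eq_sq_iff_eq_or_eq_neg.1 hY2 with hY | hY
    · have h2 : (2 : ℤ[X]) * A m E = 2 * A m E' := by
        have := congrArg₂ (· + ·) hX hY
        simp only [Xp, Yp] at this
        linear_combination this
      have h20 : (2 : ℤ[X]) ≠ 0 := by norm_num
      exact mul_left_cancel₀ h20 h2
    · exfalso
      have h2 : (2 : ℤ[X]) * A m E = 2 * B m E' := by
        have := congrArg₂ (· + ·) hX hY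
        simp only [Xp, Yp] at this
        linear_combination this
      have h20 : (2 : ℤ[X]) ≠ 0 := by norm_num
      have h3 := mul_left_cancel₀ h20 h2
      have h4 : (B m E').eval 1 = 0 := by rw [← h3, eval_one_A hm h1]
      exact eval_one_B hm h1' h4
  exact Finset.Subset.antisymm (A_injOn hm hE hA) (A_injOn hm hE' hA.symm)

/-- the sets `E` of divisors of `m` containing `1` -/
def idx (m : ℕ) : Finset (Finset ℕ) := ((m.divisors.erase 1).powerset).image (insert 1)

theorem mem_idx {m : ℕ} (hm : Odd m) {E : Finset ℕ} (h : E ∈ idx m) :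
    E ⊆ m.divisors ∧ 1 ∈ E := by
  obtain ⟨S, hS, rfl⟩ := mem_image.1 h
  rw [mem_powerset] at hS
  refine ⟨insert_subset (by simp [hm.pos.ne']) (hS.trans (erase_subset _ _)), mem_insert_self _ _⟩

theorem card_idx {m : ℕ} (hm : Odd m) : (idx m).card = 2 ^ (m.divisors.card - 1) := by
  rw [idx, card_image_of_injOn, card_powerset, card_erase_of_mem (by simp [hm.pos.ne'])]
  intro S hS T hT h
  simp only [coe_powerset, Set.mem_preimage, Set.mem_powerset_iff, coe_subset] at hS hT
  have hS1 : 1 ∉ S := fun h => by simpa using hS h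
  have hT1 : 1 ∉ T := fun h => by simpa using hT h
  rw [← erase_insert hS1, ← erase_insert hT1, h]

end Pool.Agent.W222.ABCD
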