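import Pool.Agent.W222.ABCD.RU
import Pool.Agent.W222.ABCD.Core

/-!
# The rational function field
-/

set_option autoImplicit false

namespace Pool.Agent.W222.ABCD.FF

open Filter Polynomial

variable {k : Type*} [Field k]

/-- the order of `z` at the place `a ∈ k` of `k(t)` -/
noncomputable def ordAt (a : k) (z : RatFunc k) : ℤ :=
  (z.num.rootMultiplicity a : ℤ) - z.denom.rootMultiplicity a

/-- `h(P)`: the sum over the places `v ∈ k ∪ {∞}` of `max (- ord_v z_j)` -/
noncomputable def height {n : ℕ} (z : Fin n → RatFunc k) : ℤ :=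
  (∑ᶠ a : k, ⨆ j, -ordAt a (z j)) + ⨆ j, (z j).intDegree

open Classical in
/-- `rad(P)`: the number of places `v ∈ k ∪ {∞}` at which the `ord_v z_j` are not all equal -/
noncomputable def rad {n : ℕ} (z : Fin n → RatFunc k) : ℕ :=
  {a : k | ¬ ∀ i j, ordAt a (z i) = ordAt a (z j)}.ncard +
    if ∀ i j, (z i).intDegree = (z j).intDegree then 0 else 1

theorem ordAt_algebraMap (a : k) (p : k[X]) :
    ordAt a (algebraMap k[X] (RatFunc k) p) = p.rootMultiplicity a := by
  rw [ordAt, RatFunc.num_algebraMap, RatFunc.denom_algebraMap]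
  simp

/-- height of a point with polynomial coordinates one of which is a nonzero constant -/
theorem height_ge {n : ℕ} (p : Fin n → k[X]) (c : k) (j : Fin n) (hj : p j = C c)
    (i : Fin n) :
    ((p i).natDegree : ℤ) ≤ height (fun i => algebraMap k[X] (RatFunc k) (p i)) := by
  have h1 : ∀ a : k, ⨆ j, -ordAt a (algebraMap k[X] (RatFunc k) (p j)) = 0 := by
    intro a
    have : Nonempty (Fin n) := ⟨j⟩
    refine le_antisymm (ciSup_le fun i => ?_) ?_
    · rw [ordAt_algebraMap]
      omega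
    · have h2 : -ordAt a (algebraMap k[X] (RatFunc k) (p j)) = 0 := by
        rw [ordAt_algebraMap, hj, rootMultiplicity_C]
        simp
      rw [← h2]
      exact le_ciSup (f := fun j => -ordAt a (algebraMap k[X] (RatFunc k) (p j)))
        (Set.finite_range _).bddAbove j
  rw [height]
  simp only [h1, finsum_zero, zero_add]
  rw [← RatFunc.intDegree_polynomial]
  exact le_ciSup (f := fun i => (algebraMap k[X] (RatFunc k) (p i)).intDegree)
    (Set.finite_range _).bddAbove i

/-- if the coordinates are nonzero polynomials all of whose roots are roots of `r`, then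
`rad ≤ deg r + 1` -/
theorem rad_le {n : ℕ} (p : Fin n → k[X]) (r : k[X]) (hr : r ≠ 0)
    (h : ∀ a : k, r.eval a ≠ 0 → ∀ i, (p i).eval a ≠ 0) :
    rad (fun i => algebraMap k[X] (RatFunc k) (p i)) ≤ r.natDegree + 1 := by
  classical
  rw [rad]
  refine Nat.add_le_add ?_ (by split_ifs <;> omega)
  have hsub : {a : k | ¬ ∀ i j, ordAt a (algebraMap k[X] (RatFunc k) (p i)) =
      ordAt a (algebraMap k[X] (RatFunc k) (p j))} ⊆ (r.roots.toFinset : Set k) := by
    intro a ha
    simp only [Finset.mem_coe, Multiset.mem_toFinset]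
    rw [mem_roots hr]
    by_contra hcon
    apply ha
    intro i j
    rw [ordAt_algebraMap, ordAt_algebraMap, rootMultiplicity_eq_zero (h a hcon i),
      rootMultiplicity_eq_zero (h a hcon j)]
  refine (Set.ncard_le_ncard hsub (Finset.finite_toSet _)).trans ?_
  rw [Set.ncard_coe_finset]
  exact (Multiset.toFinset_card_le _).trans (card_roots' r)

theorem ff_main [IsAlgClosed k] [CharZero k] {K' m D : ℕ} (hk : 1 ≤ K') (hm : Odd m)
    {ε : ℝ} (hε : 0 < ε) (hεm : ε * (m - 1) < 1) {L : Type*} [Field L] [Algebra (RatFunc k) L]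
    (F : MvPolynomial (Fin (K' + 3)) L) (hF : F.IsHomogeneous D) (w : Fin (K' + 3) → L)
    (hw : ∑ i, w i = 0) (hFw : MvPolynomial.eval w F ≠ 0)
    (hD : D < 2 ^ (m - 1)) (C₀ : ℝ) :
    ∃ z : Fin (K' + 3) → RatFunc k, (∀ i, z i ≠ 0) ∧ ∑ i, z i = 0 ∧
      MvPolynomial.eval (fun i => algebraMap (RatFunc k) L (z i)) F ≠ 0 ∧
      (1 + ε) * rad z + C₀ ≤ height z := by
  classical
  have : CharZero (RatFunc k) := charZero_of_injective_algebraMap
    (algebraMap k (RatFunc k)).injective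
  have : CharZero L := charZero_of_injective_algebraMap (algebraMap (RatFunc k) L).injective
  obtain ⟨ζ₀, hζ⟩ : ∃ ζ₀ : k, IsPrimitiveRoot ζ₀ m := by
    have : NeZero (m : k) := ⟨by
      have := hm.pos
      exact_mod_cast this.ne'⟩
    exact HasEnoughRootsOfUnity.exists_primitiveRoot k m
  obtain ⟨lam, hlam1, hlam0, u, v, huv⟩ := exists_lam hk F hF w hw hFw
  set φ : k →+* L := (algebraMap (RatFunc k) L).comp (algebraMap k (RatFunc k)) with hφ
  have hinj : Function.Injective (Polynomial.map φ) :=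
    Polynomial.map_injective _ φ.injective
  obtain ⟨E, hE, hR⟩ := exists_curve (m := 2 * m) (by have := hm.pos; omega) F hF.totalDegree_le
    (fun i => (lam i : L)) u v huv (RU.idx k m) (fun E => (RU.Xp m E).map φ)
    (by
      intro E hE E' hE' h
      rw [← Polynomial.map_pow, ← Polynomial.map_pow] at h
      exact RU.Xp_sq_inj hm hζ (RU.mem_idx hm hE).1 (RU.mem_idx hm hE').1 (RU.mem_idx hm hE).2
        (RU.mem_idx hm hE').2 (hinj h))
    (by rwa [RU.card_idx hm hζ])
  obtain ⟨hEsub, hE1⟩ := RU.mem_idx hm hE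
  have hX0 : RU.Xp m E ≠ 0 := RU.Xp_ne_zero hζ E
  have hY0 : RU.Yp m E ≠ 0 := RU.Yp_ne_zero hm hE1
  have hXq := RU.Xp_eq hm hζ E
  have hq0 : RU.Xq m E ≠ 0 := by
    intro h
    rw [h, mul_zero] at hXq
    exact hX0 hXq
  -- the parameter
  set τ : L := algebraMap (RatFunc k) L RatFunc.X with hτ
  have hτinj : Function.Injective (fun q : ℕ => τ ^ q) := by
    intro a b h
    have h1 : (RatFunc.X : RatFunc k) ^ a = RatFunc.X ^ b := by
      apply (algebraMap (RatFunc k) L).injective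
      rw [map_pow, map_pow]
      exact h
    have h2 := congrArg RatFunc.intDegree h1
    have h3 : ∀ c : ℕ, ((RatFunc.X : RatFunc k) ^ c).intDegree = c := by
      intro c
      rw [← RatFunc.algebraMap_X, ← map_pow, RatFunc.intDegree_polynomial, natDegree_X_pow]
    rw [h3, h3] at h2
    exact_mod_cast h2
  set R : L[X] := MvPolynomial.aeval (pt (C (1 / 4 : L) * ((RU.Xp m E).map φ) ^ 2)
    (-(C (1 / 4 : L) * ((RU.Xp m E).map φ) ^ 2) + X ^ (2 * m) - 1)
    (-X ^ (2 * m)) (fun i => C (lam i : L))) F with hRdef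
  have hevR : ∀ᶠ q : ℕ in atTop, R.eval (τ ^ q) ≠ 0 := by
    have h1 : {q : ℕ | ¬ R.eval (τ ^ q) ≠ 0}.Finite := by
      refine Set.Finite.of_finite_image (f := fun q : ℕ => τ ^ q)
        (R.roots.toFinset.finite_toSet.subset ?_) hτinj.injOn
      rintro _ ⟨q, hq, rfl⟩
      have hq' : R.eval (τ ^ q) = 0 := not_not.1 hq
      simp only [Finset.mem_coe, Multiset.mem_toFinset]
      rw [mem_roots hR]
      exact hq'
    have := Set.Finite.compl_mem_cofinite h1
    rw [Nat.cofinite_eq_atTop] at this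
    filter_upwards [this] with q hq
    exact not_not.1 hq
  have hcoef : 0 < 2 - 2 * (ε * (m - 1)) := by linarith
  have hev1 : ∀ᶠ q : ℕ in atTop, (1 + ε) * 2 + C₀ ≤ (2 - 2 * (ε * (m - 1))) * (q : ℝ) :=
    (tendsto_natCast_atTop_atTop.const_mul_atTop hcoef).eventually_ge_atTop _
  obtain ⟨q, hq1, hqR, hqpos⟩ := (hev1.and (hevR.and (eventually_ge_atTop 1))).exists
  -- the point, with polynomial coordinates
  set Xq0 : k[X] := (RU.Xp m E).comp (X ^ q) with hXq0
  set Yq0 : k[X] := (RU.Yp m E).comp (X ^ q) with hYq0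
  have hid : Xq0 ^ 2 - Yq0 ^ 2 = 4 * ((X ^ q) ^ (2 * m) - 1) := by
    have := congrArg (fun p : k[X] => p.comp (X ^ q)) (RU.Xp_sq_sub_Yp_sq hm hζ E)
    simpa using this
  have h4 : (C (1 / 4 : k) : k[X]) * 4 = 1 := by
    have : (4 : k[X]) = C 4 := (map_ofNat (C : k →+* k[X]) 4).symm
    rw [this, ← C_mul]
    norm_num
  set p : Fin (K' + 3) → k[X] := pt (C (1 / 4 : k) * Xq0 ^ 2)
    (-(C (1 / 4 : k) * Xq0 ^ 2) + (X ^ q) ^ (2 * m) - 1) (-(X ^ q) ^ (2 * m))
    (fun i => C (lam i : k)) with hp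
  have hidp : (-(C (1 / 4 : k) * Xq0 ^ 2) + (X ^ q) ^ (2 * m) - 1 : k[X]) =
      -(C (1 / 4 : k) * Yq0 ^ 2) := by
    linear_combination (-C (1 / 4 : k)) * hid + ((X ^ q) ^ (2 * m) - 1 : k[X]) * (-h4)
  have hp' : p = pt (C (1 / 4 : k) * Xq0 ^ 2) (-(C (1 / 4 : k) * Yq0 ^ 2)) (-(X ^ q) ^ (2 * m))
      (fun i => C (lam i : k)) := by
    rw [hp, hidp]
  have hcomp0 : ∀ f : k[X], f ≠ 0 → f.comp (X ^ q) ≠ 0 := by
    intro f hf h
    rw [comp_eq_zero_iff] at h
    rcases h with h | ⟨-, h⟩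
    · exact hf h
    · have := congrArg natDegree h
      rw [natDegree_X_pow, natDegree_C] at this
      omega
  have hXq00 : Xq0 ≠ 0 := hcomp0 _ hX0
  have hYq00 : Yq0 ≠ 0 := hcomp0 _ hY0
  have hC4 : (C (1 / 4 : k) : k[X]) ≠ 0 := by
    rw [Ne, C_eq_zero]
    norm_num
  have hp0 : ∀ i, p i ≠ 0 := by
    intro i
    rw [hp']
    refine Fin.cases ?_ (fun i => ?_) i
    · exact mul_ne_zero hC4 (pow_ne_zero 2 hXq00)
    refine Fin.cases ?_ (fun i => ?_) i
    · exact neg_ne_zero.2 (mul_ne_zero hC4 (pow_ne_zero 2 hYq00))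
    refine Fin.cases ?_ (fun i => ?_) i
    · exact neg_ne_zero.2 (pow_ne_zero _ (pow_ne_zero _ X_ne_zero))
    · show (C (lam i : k) : k[X]) ≠ 0
      rw [Ne, C_eq_zero]
      exact_mod_cast hlam0 i
  refine ⟨fun i => algebraMap k[X] (RatFunc k) (p i), ?_, ?_, ?_, ?_⟩
  · intro i h
    rw [← map_zero (algebraMap k[X] (RatFunc k))] at h
    exact hp0 i (IsFractionRing.injective k[X] (RatFunc k) h)
  · rw [← map_sum, hp, pt_sum]
    have h1 : ∑ i, (C (lam i : k) : k[X]) = 1 := by
      rw [← map_sum, ← Rat.cast_sum, hlam1, Rat.cast_one, C_1]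
    rw [h1]
    have : (C (1 / 4 : k) * Xq0 ^ 2 + (-(C (1 / 4 : k) * Xq0 ^ 2) + (X ^ q) ^ (2 * m) - 1 +
        (-(X ^ q) ^ (2 * m) + 1)) : k[X]) = 0 := by ring
    rw [this, map_zero]
  · -- nonvanishing of the form
    intro h0
    apply hqR
    rw [← h0, hRdef, MvPolynomial.aeval_def, ← Polynomial.coe_evalRingHom,
      MvPolynomial.eval₂_comp_left, MvPolynomial.eval, MvPolynomial.coe_eval₂Hom]
    congr 1
    · ext a
      simp
    · have h2 := comp_pt (Polynomial.evalRingHom (τ ^ q))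
        (C (1 / 4 : L) * ((RU.Xp m E).map φ) ^ 2)
        (-(C (1 / 4 : L) * ((RU.Xp m E).map φ) ^ 2) + X ^ (2 * m) - 1)
        (-X ^ (2 * m)) (fun i => C (lam i : L))
      refine Eq.trans h2 ?_
      have h3 := comp_pt (fun f : k[X] => algebraMap (RatFunc k) L (algebraMap k[X] (RatFunc k) f))
        (C (1 / 4 : k) * Xq0 ^ 2) (-(C (1 / 4 : k) * Xq0 ^ 2) + (X ^ q) ^ (2 * m) - 1)
        (-(X ^ q) ^ (2 * m)) (fun i => C (lam i : k))
      have h5 : algebraMap (RatFunc k) L (algebraMap k[X] (RatFunc k) Xq0) =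
          ((RU.Xp m E).map φ).eval (τ ^ q) := by
        rw [hXq0, eval_map, hφ, ← RingHom.comp_apply]
        have h6 : ∀ f : k[X], ((algebraMap (RatFunc k) L).comp (algebraMap k[X] (RatFunc k)))
            (f.comp (X ^ q)) = f.eval₂ ((algebraMap (RatFunc k) L).comp
              (algebraMap k (RatFunc k))) (τ ^ q) := by
          intro f
          rw [comp, hom_eval₂]
          congr 1
          simp [hτ]
        exact h6 _
      have h7 : ∀ a : k, algebraMap (RatFunc k) L (algebraMap k[X] (RatFunc k) (C a)) = φ a := by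
        intro a
        rw [RatFunc.algebraMap_C, hφ]
        rfl
      have h8 : algebraMap (RatFunc k) L (algebraMap k[X] (RatFunc k) X) = τ := by
        rw [RatFunc.algebraMap_X]
      rw [hp, h3]
      simp only [map_mul, map_pow, map_neg, map_add, map_sub, map_one, h5, h7, h8,
        Polynomial.coe_evalRingHom, Polynomial.eval_C, Polynomial.eval_X, map_ratCast, map_div₀,
        map_ofNat]
  · -- the inequality
    have hht : (2 * m * q : ℝ) ≤ height (fun i => algebraMap k[X] (RatFunc k) (p i)) := by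
      have h1 := height_ge p (lam ⟨0, hk⟩ : k)
        (Fin.succ (Fin.succ (Fin.succ ⟨0, hk⟩))) (by rw [hp]; rfl) 2
      have h2 : (p 2).natDegree = 2 * m * q := by
        have : p 2 = -(X ^ q) ^ (2 * m) := by rw [hp]; rfl
        rw [this, natDegree_neg, ← pow_mul, natDegree_X_pow]
        ring
      rw [h2] at h1
      exact_mod_cast h1
    set r : k[X] := X * (RU.Xq m E).comp (X ^ q) * Yq0 with hr
    have hr0 : r ≠ 0 := mul_ne_zero (mul_ne_zero X_ne_zero (hcomp0 _ hq0)) hYq00
    have hrdeg : r.natDegree ≤ 1 + (m - 1) * q + (m - 1) * q := by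
      refine natDegree_mul_le.trans (Nat.add_le_add (natDegree_mul_le.trans
        (Nat.add_le_add natDegree_X_le ?_)) ?_)
      · rw [natDegree_comp, natDegree_X_pow]
        exact Nat.mul_le_mul_right _ (RU.Xq_natDegree hζ E)
      · rw [hYq0, natDegree_comp, natDegree_X_pow]
        exact Nat.mul_le_mul_right _ (RU.Yp_natDegree hζ E)
    have hrad : rad (fun i => algebraMap k[X] (RatFunc k) (p i)) ≤
        2 + 2 * (m - 1) * q := by
      refine (rad_le p r hr0 ?_).trans (by nlinarith [hrdeg])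
      intro a ha i
      rw [hr, eval_mul, eval_mul, eval_X] at ha
      have ha1 : a ≠ 0 := left_ne_zero_of_mul (left_ne_zero_of_mul ha)
      have ha2 := right_ne_zero_of_mul (left_ne_zero_of_mul ha)
      have ha3 := right_ne_zero_of_mul ha
      have hk4 : (1 / 4 : k) ≠ 0 := by norm_num
      rw [hp']
      refine Fin.cases ?_ (fun i => ?_) i
      · show (C (1 / 4 : k) * Xq0 ^ 2).eval a ≠ 0
        rw [eval_mul, eval_C, eval_pow, hXq0, hXq, mul_comp, eval_mul, X_comp, eval_pow, eval_X]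
        exact mul_ne_zero hk4 (pow_ne_zero 2 (mul_ne_zero (pow_ne_zero q ha1) ha2))
      refine Fin.cases ?_ (fun i => ?_) i
      · show (-(C (1 / 4 : k) * Yq0 ^ 2)).eval a ≠ 0
        rw [eval_neg, eval_mul, eval_C, eval_pow]
        exact neg_ne_zero.2 (mul_ne_zero hk4 (pow_ne_zero 2 ha3))
      refine Fin.cases ?_ (fun i => ?_) i
      · show (-(X ^ q) ^ (2 * m) : k[X]).eval a ≠ 0
        rw [eval_neg, eval_pow, eval_pow, eval_X]
        exact neg_ne_zero.2 (pow_ne_zero _ (pow_ne_zero _ ha1))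
      · show (C (lam i : k) : k[X]).eval a ≠ 0
        rw [eval_C]
        exact_mod_cast hlam0 i
    have hradR : (rad (fun i => algebraMap k[X] (RatFunc k) (p i)) : ℝ) ≤
        2 + 2 * (m - 1) * q := by
      have h1 : ((m - 1 : ℕ) : ℝ) = (m : ℝ) - 1 := by
        rw [Nat.cast_sub hm.pos, Nat.cast_one]
      have h2 : (rad (fun i => algebraMap k[X] (RatFunc k) (p i)) : ℝ) ≤
          ((2 + 2 * (m - 1) * q : ℕ) : ℝ) := by exact_mod_cast hrad
      rw [← h1]
      push_cast at h2
      linarith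
    have h5 := mul_le_mul_of_nonneg_left hradR (by linarith : (0 : ℝ) ≤ 1 + ε)
    have h6 : (1 + ε) * (2 + 2 * ((m : ℝ) - 1) * q) + C₀ =
        ((1 + ε) * 2 + C₀) + 2 * m * q - (2 - 2 * (ε * (m - 1))) * q := by ring
    linarith

end Pool.Agent.W222.ABCD.FF
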