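import Pool.Agent.W222.ABCD.Cyc
import Pool.Agent.W222.ABCD.Core

/-!
# Height and radical over a number field
-/

set_option autoImplicit false

namespace Pool.Agent.W222.ABCD

open NumberField Filter

variable {K : Type*} [Field K] [NumberField K]

/-- `h(P)`: the sum over all places `v` of `(n_v / [K : ℚ]) log max |z_j|_v` -/
noncomputable def height {n : ℕ} (z : Fin n → K) : ℝ :=
  Height.logHeight z / Module.finrank ℚ K

open Classical in
/-- `rad(P)`: `1 / [K : ℚ]` times the sum of `log N(𝔭)` over the nonzero primes `𝔭` at which the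
orders of the coordinates are not all equal -/
noncomputable def rad {n : ℕ} (z : Fin n → K) : ℝ :=
  (∑ᶠ v : IsDedekindDomain.HeightOneSpectrum (𝓞 K),
    if ∀ i j, v.valuation K (z i) = v.valuation K (z j) then 0
    else Real.log (Ideal.absNorm v.asIdeal)) / Module.finrank ℚ K

theorem finrank_pos' : (0 : ℝ) < Module.finrank ℚ K := by
  exact_mod_cast Module.finrank_pos

/-- the relative logarithmic height of a positive natural number -/
theorem logHeight₁_natCast (N : ℕ) (hN : 1 ≤ N) :
    Module.finrank ℚ K * Real.log N ≤ Height.logHeight₁ (N : K) := by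
  rw [NumberField.logHeight₁_eq]
  have h1 : ∑ v : InfinitePlace K, (v.mult : ℝ) * Real.posLog (v (N : K)) =
      Module.finrank ℚ K * Real.log N := by
    have h2 : ∀ v : InfinitePlace K, (v.mult : ℝ) * Real.posLog (v (N : K)) =
        v.mult * Real.log N := by
      intro v
      rw [InfinitePlace.map_natCast, Real.posLog_eq_log]
      rw [abs_of_nonneg (Nat.cast_nonneg N)]
      exact_mod_cast hN
    rw [Finset.sum_congr rfl fun v _ => h2 v, ← Finset.sum_mul]
    congr 1
    exact_mod_cast InfinitePlace.sum_mult_eq (K := K)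
  rw [h1]
  have h3 : 0 ≤ ∑ᶠ v : FinitePlace K, Real.posLog (v (N : K)) :=
    finsum_nonneg fun v => Real.posLog_nonneg
  linarith

/-- lower bound for the height of a point with coordinates `- N` and `l` -/
theorem height_ge {n : ℕ} (z : Fin n → K) (N : ℕ) (hN : 1 ≤ N) (l : K) (hl : l ≠ 0)
    (i j : Fin n) (hi : z i = -(N : K)) (hj : z j = l) :
    Real.log N - Height.logHeight₁ l / Module.finrank ℚ K ≤ height z := by
  have h0 := finrank_pos' (K := K)
  have h1 : Height.logHeight ![-(N : K), l] ≤ Height.logHeight z := by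
    have := Height.logHeight_comp_le ![i, j] z
    have e : z ∘ ![i, j] = ![-(N : K), l] := by
      funext a
      fin_cases a
      · simp [hi]
      · simp [hj]
    rwa [e] at this
  rw [← Height.logHeight₁_div_eq_logHeight] at h1
  have h2 : Height.logHeight₁ (N : K) ≤ Height.logHeight₁ (-(N : K) / l) + Height.logHeight₁ l := by
    have := Height.logHeight₁_mul_le (-(N : K) / l) l
    rw [div_mul_cancel₀ _ hl, Height.logHeight₁_neg] at this
    exact this
  have h3 := logHeight₁_natCast (K := K) N hN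
  rw [height, sub_le_iff_le_add, ← add_div, le_div_iff₀ h0]
  linarith

theorem val_eq_one_of_dvd (v : IsDedekindDomain.HeightOneSpectrum (𝓞 K)) {a N : ℤ} (h : a ∣ N)
    (hN : (N : 𝓞 K) ∉ v.asIdeal) : v.valuation K (a : K) = 1 := by
  have h1 : (a : 𝓞 K) ∉ v.asIdeal := by
    intro ha
    obtain ⟨b, rfl⟩ := h
    apply hN
    push_cast
    exact Ideal.mul_mem_right _ _ ha
  have h2 : v.valuation K (algebraMap (𝓞 K) K (a : 𝓞 K)) ≤ 1 :=
    v.valuation_le_one (K := K) (a : 𝓞 K)
  have h3 : ¬ v.valuation K (algebraMap (𝓞 K) K (a : 𝓞 K)) < 1 :=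
    (v.valuation_lt_one_iff_mem (K := K) (a : 𝓞 K)).not.2 h1
  have h4 : (algebraMap (𝓞 K) K (a : 𝓞 K)) = (a : K) := map_intCast _ _
  rw [h4] at h2 h3
  exact le_antisymm h2 (not_lt.1 h3)

/-- if all coordinates are units away from `N` then `rad ≤ log N` -/
theorem rad_le {n : ℕ} (z : Fin n → K) (N : ℕ) (hN : N ≠ 0)
    (h : ∀ v : IsDedekindDomain.HeightOneSpectrum (𝓞 K), (N : 𝓞 K) ∉ v.asIdeal →
      ∀ i, v.valuation K (z i) = 1) :
    rad z ≤ Real.log N := by
  classical
  have h0 := finrank_pos' (K := K)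
  have hN0 : (N : 𝓞 K) ≠ 0 := by exact_mod_cast hN
  have hspan : (Ideal.span {(N : 𝓞 K)}) ≠ 0 := by
    rw [Ne, Ideal.zero_eq_bot, Ideal.span_singleton_eq_bot]
    exact hN0
  have hfin := Ideal.finite_factors hspan
  set f : IsDedekindDomain.HeightOneSpectrum (𝓞 K) → ℝ := fun v =>
    if ∀ i j, v.valuation K (z i) = v.valuation K (z j) then 0
    else Real.log (Ideal.absNorm v.asIdeal) with hf
  have hsub : Function.support f ⊆ (hfin.toFinset : Set _) := by
    intro v hv
    rw [Set.Finite.coe_toFinset]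
    by_contra hcon
    apply hv
    have h1 : (N : 𝓞 K) ∉ v.asIdeal := by
      intro h2
      apply hcon
      show v.asIdeal ∣ Ideal.span {(N : 𝓞 K)}
      rw [Ideal.dvd_span_singleton]
      exact h2
    have h2 := h v h1
    simp only [hf]
    rw [if_pos]
    intro i j
    rw [h2 i, h2 j]
  rw [rad, div_le_iff₀ h0, finsum_eq_sum_of_support_subset _ hsub]
  have h1 : ∑ v ∈ hfin.toFinset, f v ≤
      ∑ v ∈ hfin.toFinset, Real.log (Ideal.absNorm v.asIdeal) := by
    refine Finset.sum_le_sum fun v _ => ?_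
    simp only [hf]
    split_ifs
    · exact Real.log_natCast_nonneg _
    · exact le_rfl
  refine h1.trans ?_
  have hpos : ∀ v : IsDedekindDomain.HeightOneSpectrum (𝓞 K),
      (Ideal.absNorm v.asIdeal : ℝ) ≠ 0 := by
    intro v
    have := v.ne_bot
    rw [Ne, Nat.cast_eq_zero, Ideal.absNorm_eq_zero_iff]
    exact this
  rw [← Real.log_prod (fun v _ => hpos v), ← Nat.cast_prod, ← map_prod]
  have h2 : (∏ v ∈ hfin.toFinset, v.asIdeal) ∣ Ideal.span {(N : 𝓞 K)} := by
    refine Finset.prod_dvd_of_coprime ?_ ?_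
    · intro v _ w _ hvw
      exact Ideal.isCoprime_iff_sup_eq.mpr (Ideal.IsMaximal.coprime_of_ne v.isMaximal w.isMaximal
        (fun e => hvw (IsDedekindDomain.HeightOneSpectrum.ext e)))
    · intro v hv
      simpa using hv
  have h3 : Ideal.absNorm (∏ v ∈ hfin.toFinset, v.asIdeal) ∣ N ^ Module.finrank ℚ K := by
    have := map_dvd (Ideal.absNorm (S := 𝓞 K)) h2
    rwa [Ideal.absNorm_span_natCast, RingOfIntegers.rank] at this
  have h4 : 0 < N ^ Module.finrank ℚ K := by positivity
  have h5 : (Ideal.absNorm (∏ v ∈ hfin.toFinset, v.asIdeal) : ℝ) ≤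
      ((N ^ Module.finrank ℚ K : ℕ) : ℝ) := by
    exact_mod_cast Nat.le_of_dvd h4 h3
  have h6 : (0 : ℝ) < (Ideal.absNorm (∏ v ∈ hfin.toFinset, v.asIdeal) : ℝ) := by
    exact_mod_cast Nat.pos_of_dvd_of_pos h3 h4
  refine (Real.log_le_log h6 h5).trans ?_
  push_cast
  rw [Real.log_pow, mul_comm]

/-- growth of an integer polynomial -/
theorem eval_bound (p : Polynomial ℤ) {e : ℕ} (he : p.natDegree ≤ e) :
    ∃ c : ℕ, 1 ≤ c ∧ ∀ t : ℕ, 1 ≤ t → (p.eval (t : ℤ)).natAbs ≤ c * t ^ e := by
  refine ⟨(∑ i ∈ Finset.range (e + 1), (p.coeff i).natAbs) + 1, by omega, fun t ht => ?_⟩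
  have h1 : p.eval (t : ℤ) = ∑ i ∈ Finset.range (e + 1), p.coeff i * (t : ℤ) ^ i :=
    Polynomial.eval_eq_sum_range' (by omega) _
  rw [h1]
  refine (Int.natAbs_sum_le _ _).trans ?_
  have h2 : ∑ i ∈ Finset.range (e + 1), (p.coeff i * (t : ℤ) ^ i).natAbs ≤
      ∑ i ∈ Finset.range (e + 1), (p.coeff i).natAbs * t ^ e := by
    refine Finset.sum_le_sum fun i hi => ?_
    rw [Int.natAbs_mul, Int.natAbs_pow, Int.natAbs_natCast]
    refine Nat.mul_le_mul_left _ (Nat.pow_le_pow_right ht ?_)
    have := Finset.mem_range.1 hi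
    omega
  refine h2.trans ?_
  rw [← Finset.sum_mul]
  exact Nat.mul_le_mul_right _ (Nat.le_succ _)

/-- a nonzero polynomial does not vanish at `2 ^ q` for large `q` -/
theorem eventually_eval_ne_zero {L : Type*} [Field L] [CharZero L] {p : Polynomial L}
    (hp : p ≠ 0) : ∀ᶠ q : ℕ in atTop, p.eval ((2 : L) ^ q) ≠ 0 := by
  classical
  have h1 : {q : ℕ | ¬ p.eval ((2 : L) ^ q) ≠ 0}.Finite := by
    have h2 : Function.Injective (fun q : ℕ => (2 : L) ^ q) := by
      intro a b h
      have h' : ((2 ^ a : ℕ) : L) = ((2 ^ b : ℕ) : L) := by push_cast; exact h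
      exact Nat.pow_right_injective le_rfl (Nat.cast_injective h')
    refine Set.Finite.of_finite_image (f := fun q : ℕ => (2 : L) ^ q)
      (p.roots.toFinset.finite_toSet.subset ?_) h2.injOn
    rintro _ ⟨q, hq, rfl⟩
    have hq' : p.eval ((2 : L) ^ q) = 0 := not_not.1 hq
    simp only [Finset.mem_coe, Multiset.mem_toFinset]
    rw [Polynomial.mem_roots hp]
    exact hq'
  have := Set.Finite.compl_mem_cofinite h1
  rw [Nat.cofinite_eq_atTop] at this
  filter_upwards [this] with q hq
  exact not_not.1 hq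

end Pool.Agent.W222.ABCD
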