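import Pool.Agent.W222.ABCD.NF

/-!
# Points over a number field violating the `n`-term abc inequality outside a hypersurface
-/

set_option autoImplicit false

namespace Pool.Agent.W222.ABCD

open NumberField Filter

theorem eval_map_two (q : ℕ) (p : Polynomial ℤ) (S : Type*) [CommRing S] :
    (p.map (Int.castRingHom S)).eval ((2 : S) ^ q) = ((p.eval ((2 : ℤ) ^ q) : ℤ) : S) := by
  have := Polynomial.eval_intCast_map (Int.castRingHom S) p ((2 : ℤ) ^ q)
  simpa using this

theorem nf_main {K : Type*} [Field K] [NumberField K] {k m D : ℕ} (hk : 1 ≤ k) (hm : Odd m)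
    {ε : ℝ} (hε : 0 < ε) (hεm : ε * (m - 1) < 1) {L : Type*} [Field L] [Algebra K L]
    (F : MvPolynomial (Fin (k + 3)) L) (hF : F.IsHomogeneous D) (w : Fin (k + 3) → L)
    (hw : ∑ i, w i = 0) (hFw : MvPolynomial.eval w F ≠ 0)
    (hD : D < 2 ^ (m.divisors.card - 1)) (C : ℝ) :
    ∃ z : Fin (k + 3) → K, (∀ i, z i ≠ 0) ∧ ∑ i, z i = 0 ∧
      MvPolynomial.eval (fun i => algebraMap K L (z i)) F ≠ 0 ∧
      (1 + ε) * rad z + C ≤ height z := by
  classical
  have hK := finrank_pos' (K := K)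
  have : CharZero L := charZero_of_injective_algebraMap (algebraMap K L).injective
  obtain ⟨lam, hlam1, hlam0, u, v, huv⟩ := exists_lam hk F hF w hw hFw
  have hinj : Function.Injective (Polynomial.map (Int.castRingHom L)) :=
    Polynomial.map_injective _ (RingHom.injective_int _)
  obtain ⟨E, hE, hR⟩ := exists_curve (m := 2 * m) (by have := hm.pos; omega) F hF.totalDegree_le
    (fun i => (lam i : L)) u v huv (idx m) (fun E => (Xp m E).map (Int.castRingHom L))
    (by
      intro E hE E' hE' h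
      rw [← Polynomial.map_pow, ← Polynomial.map_pow] at h
      exact Xp_sq_inj hm (mem_idx hm hE).1 (mem_idx hm hE').1 (mem_idx hm hE).2 (mem_idx hm hE').2
        (hinj h))
    (by rwa [card_idx hm])
  obtain ⟨hEsub, hE1⟩ := mem_idx hm hE
  -- nonvanishing at `2 ^ q`
  have hYL : (Yp m E).map (Int.castRingHom ℚ) ≠ 0 := by
    rw [Ne, Polynomial.map_eq_zero_iff (RingHom.injective_int _)]
    exact Yp_ne_zero hm hE1
  have hXL : (Xp m E).map (Int.castRingHom ℚ) ≠ 0 := by
    rw [Ne, Polynomial.map_eq_zero_iff (RingHom.injective_int _)]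
    exact Xp_ne_zero hm E
  obtain ⟨c1, hc1, hb1⟩ := eval_bound (Xq m E) (Xq_natDegree hm E)
  obtain ⟨c2, hc2, hb2⟩ := eval_bound (Yp m E) (Yp_natDegree hm E)
  set P : ℕ := ∏ i, ((lam i).num.natAbs * (lam i).den) with hP
  have hP0 : P ≠ 0 := by
    rw [hP, Finset.prod_ne_zero_iff]
    intro i _
    have h1 : (lam i).num.natAbs ≠ 0 := by
      rw [Int.natAbs_ne_zero]
      exact Rat.num_ne_zero.2 (hlam0 i)
    exact Nat.mul_ne_zero h1 (lam i).den_ne_zero
  set c0 : ℝ := Height.logHeight₁ ((lam ⟨0, hk⟩ : ℚ) : K) / Module.finrank ℚ K with hc0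
  set c3 : ℝ := Real.log ((2 * P * c1 * c2 : ℕ) : ℝ) with hc3
  have hl2 : 0 < Real.log 2 := Real.log_pos (by norm_num)
  have hcoef : 0 < Real.log 2 * (2 - 2 * (ε * (m - 1))) := mul_pos hl2 (by linarith)
  have hev1 : ∀ᶠ q : ℕ in atTop, (1 + ε) * c3 + C + c0 ≤
      Real.log 2 * (2 - 2 * (ε * (m - 1))) * q :=
    (tendsto_natCast_atTop_atTop.const_mul_atTop hcoef).eventually_ge_atTop _
  obtain ⟨q, hq1, hqR, hqY, hqX⟩ := (hev1.and ((eventually_eval_ne_zero hR).and
    ((eventually_eval_ne_zero hYL).and (eventually_eval_ne_zero hXL)))).exists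
  set X0 : ℤ := (Xp m E).eval (2 ^ q) with hX0
  set Y0 : ℤ := (Yp m E).eval (2 ^ q) with hY0
  set W0 : ℤ := (Xq m E).eval (2 ^ q) with hW0
  have hY0' : Y0 ≠ 0 := by
    rw [eval_map_two] at hqY
    exact_mod_cast hqY
  have hX0' : X0 ≠ 0 := by
    rw [eval_map_two] at hqX
    exact_mod_cast hqX
  have hXW : X0 = 2 ^ q * W0 := by
    rw [hX0, hW0, Xp_eq hm hE1, Polynomial.eval_mul, Polynomial.eval_X]
  have hW0' : W0 ≠ 0 := by
    rintro h
    rw [h, mul_zero] at hXW
    exact hX0' hXW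
  have hid : X0 ^ 2 - Y0 ^ 2 = 4 * ((2 ^ q) ^ (2 * m) - 1) := by
    have := congrArg (Polynomial.eval ((2 : ℤ) ^ q)) (Xp_sq_sub_Yp_sq hm E)
    simpa using this
  -- the point
  set zQ : Fin (k + 3) → ℚ := pt (1 / 4 * (X0 : ℚ) ^ 2)
    (-(1 / 4 * (X0 : ℚ) ^ 2) + ((2 : ℚ) ^ q) ^ (2 * m) - 1) (-((2 : ℚ) ^ q) ^ (2 * m)) lam with hzQ
  have hidQ : (-(1 / 4 * (X0 : ℚ) ^ 2) + ((2 : ℚ) ^ q) ^ (2 * m) - 1) = -(1 / 4 * (Y0 : ℚ) ^ 2) := by
    have : (X0 : ℚ) ^ 2 - (Y0 : ℚ) ^ 2 = 4 * (((2 : ℚ) ^ q) ^ (2 * m) - 1) := by exact_mod_cast hid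
    linear_combination (-1 / 4) * this
  have hzQ' : zQ = pt (1 / 4 * (X0 : ℚ) ^ 2) (-(1 / 4 * (Y0 : ℚ) ^ 2))
      (-((2 : ℚ) ^ q) ^ (2 * m)) lam := by
    rw [hzQ, hidQ]
  have hX0Q : (X0 : ℚ) ≠ 0 := by exact_mod_cast hX0'
  have hY0Q : (Y0 : ℚ) ≠ 0 := by exact_mod_cast hY0'
  have hz0 : ∀ i, zQ i ≠ 0 := by
    intro i
    rw [hzQ']
    refine Fin.cases ?_ (fun i => ?_) i
    · show (1 / 4 * (X0 : ℚ) ^ 2) ≠ 0
      positivity
    refine Fin.cases ?_ (fun i => ?_) i
    · show (-(1 / 4 * (Y0 : ℚ) ^ 2)) ≠ 0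
      rw [neg_ne_zero]
      positivity
    refine Fin.cases ?_ (fun i => ?_) i
    · show (-((2 : ℚ) ^ q) ^ (2 * m)) ≠ 0
      rw [neg_ne_zero]
      positivity
    · exact hlam0 i
  have hcast : (fun i => ((zQ i : ℚ) : K)) = pt (1 / 4 * (X0 : K) ^ 2) (-(1 / 4 * (Y0 : K) ^ 2))
      (-((2 : K) ^ q) ^ (2 * m)) (fun i => ((lam i : ℚ) : K)) := by
    rw [hzQ', comp_pt]
    push_cast
    rfl
  refine ⟨fun i => ((zQ i : ℚ) : K), ?_, ?_, ?_, ?_⟩
  · intro i
    show ((zQ i : ℚ) : K) ≠ 0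
    exact_mod_cast hz0 i
  · rw [← Rat.cast_sum, hzQ, pt_sum, hlam1]
    have : (1 / 4 * (X0 : ℚ) ^ 2 + (-(1 / 4 * (X0 : ℚ) ^ 2) + ((2 : ℚ) ^ q) ^ (2 * m) - 1 +
        (-((2 : ℚ) ^ q) ^ (2 * m) + 1))) = 0 := by ring
    rw [this, Rat.cast_zero]
  · -- nonvanishing of the form
    have h1 : (fun i => algebraMap K L ((zQ i : ℚ) : K)) = fun i => ((zQ i : ℚ) : L) := by
      funext i
      exact map_ratCast _ _
    rw [h1]
    intro h0
    apply hqR
    rw [← h0, MvPolynomial.aeval_def, ← Polynomial.coe_evalRingHom, MvPolynomial.eval₂_comp_left,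
      MvPolynomial.eval, MvPolynomial.coe_eval₂Hom]
    congr 1
    · ext a
      simp
    · have h2 := comp_pt (Polynomial.evalRingHom ((2 : L) ^ q))
        (Polynomial.C (1 / 4 : L) * ((Xp m E).map (Int.castRingHom L)) ^ 2)
        (-(Polynomial.C (1 / 4 : L) * ((Xp m E).map (Int.castRingHom L)) ^ 2) +
          Polynomial.X ^ (2 * m) - 1)
        (-Polynomial.X ^ (2 * m)) (fun i => Polynomial.C (lam i : L))
      refine Eq.trans h2 ?_
      rw [hzQ, comp_pt]
      simp only [Polynomial.coe_evalRingHom, Polynomial.eval_mul, Polynomial.eval_C,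
        Polynomial.eval_pow, Polynomial.eval_neg, Polynomial.eval_add, Polynomial.eval_sub,
        Polynomial.eval_X, Polynomial.eval_one, eval_map_two]
      push_cast
      rfl
  · -- the inequality
    have hht : 2 * m * q * Real.log 2 - c0 ≤ height (fun i => ((zQ i : ℚ) : K)) := by
      have h1 := height_ge (fun i => ((zQ i : ℚ) : K)) ((2 ^ q) ^ (2 * m))
        (Nat.one_le_pow _ _ (by positivity)) ((lam ⟨0, hk⟩ : ℚ) : K)
        (by exact_mod_cast hlam0 ⟨0, hk⟩) 2 (Fin.succ (Fin.succ (Fin.succ ⟨0, hk⟩)))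
        (by
          have := congrFun hcast 2
          rw [this]
          show -((2 : K) ^ q) ^ (2 * m) = _
          push_cast
          rfl)
        (by
          have := congrFun hcast (Fin.succ (Fin.succ (Fin.succ ⟨0, hk⟩)))
          exact this)
      rw [← hc0] at h1
      push_cast at h1
      rw [Real.log_pow, Real.log_pow] at h1
      push_cast at h1
      linarith
    have hrad : rad (fun i => ((zQ i : ℚ) : K)) ≤
        Real.log ((2 * P * W0.natAbs * Y0.natAbs : ℕ) : ℝ) := by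
      refine rad_le _ _ ?_ ?_
      · have h1 : W0.natAbs ≠ 0 := Int.natAbs_ne_zero.2 hW0'
        have h2 : Y0.natAbs ≠ 0 := Int.natAbs_ne_zero.2 hY0'
        positivity
      · intro v hv
        have hv' : (((2 * P * W0.natAbs * Y0.natAbs : ℕ) : ℤ) : 𝓞 K) ∉ v.asIdeal := by
          rwa [Int.cast_natCast]
        have d2 : (2 : ℤ) ∣ ((2 * P * W0.natAbs * Y0.natAbs : ℕ) : ℤ) := by
          exact_mod_cast (⟨P * W0.natAbs * Y0.natAbs, by ring⟩ :
            2 ∣ 2 * P * W0.natAbs * Y0.natAbs)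
        have dW : W0 ∣ ((2 * P * W0.natAbs * Y0.natAbs : ℕ) : ℤ) := by
          rw [← Int.natAbs_dvd]
          exact_mod_cast Dvd.intro (2 * P * Y0.natAbs) (by ring)
        have dY : Y0 ∣ ((2 * P * W0.natAbs * Y0.natAbs : ℕ) : ℤ) := by
          rw [← Int.natAbs_dvd]
          exact_mod_cast Dvd.intro (2 * P * W0.natAbs) (by ring)
        have dP : ∀ i, ((lam i).num.natAbs * (lam i).den : ℕ) ∣ P := fun i =>
          Finset.dvd_prod_of_mem _ (Finset.mem_univ i)
        have dPn : (P : ℤ) ∣ ((2 * P * W0.natAbs * Y0.natAbs : ℕ) : ℤ) := by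
          exact_mod_cast Dvd.intro (2 * W0.natAbs * Y0.natAbs) (by ring)
        have v2 := val_eq_one_of_dvd v d2 hv'
        have vW := val_eq_one_of_dvd v dW hv'
        have vY := val_eq_one_of_dvd v dY hv'
        have v2' : v.valuation K (2 : K) = 1 := by exact_mod_cast v2
        have vX : v.valuation K (X0 : K) = 1 := by
          rw [hXW]
          push_cast
          rw [map_mul, map_pow, v2', vW, one_pow, one_mul]
        have v4 : v.valuation K (1 / 4 : K) = 1 := by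
          have : (1 / 4 : K) = (2 ^ 2)⁻¹ := by norm_num
          rw [this, map_inv₀, map_pow, v2', one_pow, inv_one]
        have vlam : ∀ i, v.valuation K ((lam i : ℚ) : K) = 1 := by
          intro i
          have e1 : (lam i).num ∣ ((2 * P * W0.natAbs * Y0.natAbs : ℕ) : ℤ) := by
            refine dvd_trans ?_ dPn
            rw [← Int.natAbs_dvd]
            exact_mod_cast (Dvd.intro _ rfl : (lam i).num.natAbs ∣ _).trans (dP i)
          have e2 : ((lam i).den : ℤ) ∣ ((2 * P * W0.natAbs * Y0.natAbs : ℕ) : ℤ) := by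
            refine dvd_trans ?_ dPn
            exact_mod_cast (Dvd.intro_left _ rfl : (lam i).den ∣ _).trans (dP i)
          have v1 := val_eq_one_of_dvd v e1 hv'
          have v2 := val_eq_one_of_dvd v e2 hv'
          rw [Rat.cast_def, map_div₀, v1]
          rw [Int.cast_natCast] at v2
          rw [v2, div_one]
        intro i
        show v.valuation K ((fun i => ((zQ i : ℚ) : K)) i) = 1
        rw [hcast]
        refine Fin.cases ?_ (fun i => ?_) i
        · show v.valuation K (1 / 4 * (X0 : K) ^ 2) = 1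
          rw [map_mul, v4, map_pow, vX, one_pow, one_mul]
        refine Fin.cases ?_ (fun i => ?_) i
        · show v.valuation K (-(1 / 4 * (Y0 : K) ^ 2)) = 1
          rw [Valuation.map_neg, map_mul, v4, map_pow, vY, one_pow, one_mul]
        refine Fin.cases ?_ (fun i => ?_) i
        · show v.valuation K (-((2 : K) ^ q) ^ (2 * m)) = 1
          rw [Valuation.map_neg, map_pow, map_pow, v2', one_pow, one_pow]
        · exact vlam i
    have hbound : Real.log ((2 * P * W0.natAbs * Y0.natAbs : ℕ) : ℝ) ≤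
        c3 + 2 * (m - 1) * q * Real.log 2 := by
      have h2q : 1 ≤ 2 ^ q := Nat.one_le_pow _ _ (by norm_num)
      have b1 : W0.natAbs ≤ c1 * (2 ^ q) ^ (m - 1) := by
        have := hb1 (2 ^ q) h2q
        push_cast at this
        exact this
      have b2 : Y0.natAbs ≤ c2 * (2 ^ q) ^ (m - 1) := by
        have := hb2 (2 ^ q) h2q
        push_cast at this
        exact this
      have b3 : 2 * P * W0.natAbs * Y0.natAbs ≤
          (2 * P * c1 * c2) * ((2 ^ q) ^ (m - 1) * (2 ^ q) ^ (m - 1)) := by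
        calc 2 * P * W0.natAbs * Y0.natAbs
            ≤ 2 * P * (c1 * (2 ^ q) ^ (m - 1)) * (c2 * (2 ^ q) ^ (m - 1)) := by gcongr
          _ = _ := by ring
      have hpos1 : 0 < 2 * P * W0.natAbs * Y0.natAbs := by
        have h1 : W0.natAbs ≠ 0 := Int.natAbs_ne_zero.2 hW0'
        have h2 : Y0.natAbs ≠ 0 := Int.natAbs_ne_zero.2 hY0'
        positivity
      have hpos2 : (2 * P * c1 * c2 : ℕ) ≠ 0 := by positivity
      have h3 : Real.log ((2 * P * W0.natAbs * Y0.natAbs : ℕ) : ℝ) ≤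
          Real.log (((2 * P * c1 * c2) * ((2 ^ q) ^ (m - 1) * (2 ^ q) ^ (m - 1)) : ℕ) : ℝ) := by
        refine Real.log_le_log (by exact_mod_cast hpos1) (by exact_mod_cast b3)
      refine h3.trans (le_of_eq ?_)
      rw [Nat.cast_mul (2 * P * c1 * c2), Real.log_mul (by exact_mod_cast hpos2) (by positivity),
        ← hc3]
      push_cast
      rw [Real.log_mul (by positivity) (by positivity), Real.log_pow, Real.log_pow]
      have hm1 : ((m - 1 : ℕ) : ℝ) = (m : ℝ) - 1 := by
        rw [Nat.cast_sub hm.pos, Nat.cast_one]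
      rw [hm1]
      ring
    have hrad' := hrad.trans hbound
    have h5 : (1 + ε) * rad (fun i => ((zQ i : ℚ) : K)) ≤
        (1 + ε) * (c3 + 2 * (m - 1) * q * Real.log 2) :=
      mul_le_mul_of_nonneg_left hrad' (by linarith)
    have h6 : (1 + ε) * (c3 + 2 * (m - 1) * q * Real.log 2) + C + c0 =
        ((1 + ε) * c3 + C + c0) + 2 * m * q * Real.log 2 -
          Real.log 2 * (2 - 2 * (ε * (m - 1))) * q := by ring
    linarith

end Pool.Agent.W222.ABCD
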