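import Mathlib

/-!
# Splitting `X ^ (2 m) - 1` into two monic factors of degree `m` with the help of roots of unity
-/

set_option autoImplicit false

namespace Pool.Agent.W222.ABCD.RU

open Polynomial Finset

variable {k : Type*} [Field k]

/-- product of `X - ζ` (`ζ ∈ E`) and `X + ζ` (`ζ ∉ E`) over the `m`-th roots of unity `ζ` -/
noncomputable def A [DecidableEq k] (m : ℕ) (E : Finset k) : k[X] :=
  ∏ ζ ∈ nthRootsFinset m (1 : k), if ζ ∈ E then X - C ζ else X + C ζ

/-- product of `X + ζ` (`ζ ∈ E`) and `X - ζ` (`ζ ∉ E`) over the `m`-th roots of unity `ζ` -/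
noncomputable def B [DecidableEq k] (m : ℕ) (E : Finset k) : k[X] :=
  ∏ ζ ∈ nthRootsFinset m (1 : k), if ζ ∈ E then X + C ζ else X - C ζ

variable [DecidableEq k]

theorem neg_notMem {m : ℕ} (hm : Odd m) [CharZero k] {ζ ξ : k}
    (h1 : ζ ∈ nthRootsFinset m (1 : k)) (h2 : ξ ∈ nthRootsFinset m (1 : k)) : ζ + ξ ≠ 0 := by
  rw [Polynomial.mem_nthRootsFinset hm.pos] at h1 h2
  intro h
  have h3 : ζ = -ξ := eq_neg_of_add_eq_zero_left h
  rw [h3, hm.neg_pow, h2] at h1
  have : (2 : k) = 0 := by linear_combination -h1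
  norm_num at this

theorem A_mul_B {m : ℕ} (hm : Odd m) {ζ₀ : k} (hζ : IsPrimitiveRoot ζ₀ m) (E : Finset k) :
    A m E * B m E = X ^ (2 * m) - 1 := by
  have h1 : A m E * B m E =
      ∏ ζ ∈ nthRootsFinset m (1 : k), ((X - C ζ) * (X + C ζ)) := by
    rw [A, B, ← prod_mul_distrib]
    refine prod_congr rfl fun e _ => ?_
    split_ifs
    · rfl
    · rw [mul_comm]
  have h2 := X_pow_sub_one_eq_prod hm.pos hζ
  have h3 : ∏ ζ ∈ nthRootsFinset m (1 : k), (X + C ζ) = X ^ m + 1 := by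
    have h4 := congrArg (fun p : k[X] => p.comp (-X)) h2
    simp only [sub_comp, pow_comp, X_comp, one_comp, Polynomial.prod_comp, C_comp] at h4
    have h5 : ∀ ζ ∈ nthRootsFinset m (1 : k), (-X - C ζ : k[X]) = (-1) * (X + C ζ) := by
      intro ζ _
      ring
    rw [prod_congr rfl h5, prod_mul_distrib, prod_const, hζ.card_nthRootsFinset, hm.neg_pow,
      hm.neg_one_pow] at h4
    linear_combination h4
  rw [h1, prod_mul_distrib, ← h2, h3]
  ring

theorem A_monic (m : ℕ) (E : Finset k) : (A m E).Monic := by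
  refine monic_prod_of_monic _ _ fun e _ => ?_
  split_ifs
  · exact monic_X_sub_C _
  · exact monic_X_add_C _

theorem B_monic (m : ℕ) (E : Finset k) : (B m E).Monic := by
  refine monic_prod_of_monic _ _ fun e _ => ?_
  split_ifs
  · exact monic_X_add_C _
  · exact monic_X_sub_C _

theorem natDegree_A {m : ℕ} {ζ₀ : k} (hζ : IsPrimitiveRoot ζ₀ m) (E : Finset k) :
    (A m E).natDegree = m := by
  rw [A, natDegree_prod_of_monic]
  · rw [sum_congr rfl (g := fun _ => 1), sum_const, hζ.card_nthRootsFinset, smul_eq_mul, mul_one]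
    intro e _
    split_ifs
    · exact natDegree_X_sub_C _
    · exact natDegree_X_add_C _
  · intro e _
    split_ifs
    · exact monic_X_sub_C _
    · exact monic_X_add_C _

theorem natDegree_B {m : ℕ} {ζ₀ : k} (hζ : IsPrimitiveRoot ζ₀ m) (E : Finset k) :
    (B m E).natDegree = m := by
  rw [B, natDegree_prod_of_monic]
  · rw [sum_congr rfl (g := fun _ => 1), sum_const, hζ.card_nthRootsFinset, smul_eq_mul, mul_one]
    intro e _
    split_ifs
    · exact natDegree_X_add_C _
    · exact natDegree_X_sub_C _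
  · intro e _
    split_ifs
    · exact monic_X_add_C _
    · exact monic_X_sub_C _

/-- `A(0) + B(0) = 0` -/
theorem eval_zero_add {m : ℕ} (hm : Odd m) {ζ₀ : k} (hζ : IsPrimitiveRoot ζ₀ m) (E : Finset k) :
    (A m E).eval 0 + (B m E).eval 0 = 0 := by
  have h : (A m E).eval 0 = -(B m E).eval 0 := by
    rw [A, B, eval_prod, eval_prod]
    have h5 : ∀ ζ ∈ nthRootsFinset m (1 : k),
        (if ζ ∈ E then X - C ζ else X + C ζ : k[X]).eval 0 =
          (-1) * (if ζ ∈ E then X + C ζ else X - C ζ : k[X]).eval 0 := by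
      intro ζ _
      split_ifs
      · simp
      · simp
    rw [prod_congr rfl h5, prod_mul_distrib, prod_const, hζ.card_nthRootsFinset, hm.neg_one_pow]
    ring
  rw [h, neg_add_cancel]

theorem eval_A_of_mem {m : ℕ} {E : Finset k} {ζ : k} (hζ : ζ ∈ nthRootsFinset m (1 : k))
    (hE : ζ ∈ E) : (A m E).eval ζ = 0 := by
  rw [A, eval_prod]
  refine prod_eq_zero hζ ?_
  simp [hE]

theorem eval_A_of_notMem [CharZero k] {m : ℕ} (hm : Odd m) {E : Finset k} {ζ : k}
    (hζ : ζ ∈ nthRootsFinset m (1 : k)) (hE : ζ ∉ E) : (A m E).eval ζ ≠ 0 := by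
  rw [A, eval_prod, prod_ne_zero_iff]
  intro ξ hξ
  split_ifs with h
  · simp only [eval_sub, eval_X, eval_C]
    rw [sub_ne_zero]
    rintro rfl
    exact hE h
  · simp only [eval_add, eval_X, eval_C]
    exact neg_notMem hm hζ hξ

theorem eval_B_of_mem [CharZero k] {m : ℕ} (hm : Odd m) {E : Finset k} {ζ : k}
    (hζ : ζ ∈ nthRootsFinset m (1 : k)) (hE : ζ ∈ E) : (B m E).eval ζ ≠ 0 := by
  rw [B, eval_prod, prod_ne_zero_iff]
  intro ξ hξ
  split_ifs with h
  · simp only [eval_add, eval_X, eval_C]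
    exact neg_notMem hm hζ hξ
  · simp only [eval_sub, eval_X, eval_C]
    rw [sub_ne_zero]
    rintro rfl
    exact h hE

/-- `X = A + B`, divisible by the variable -/
noncomputable def Xp (m : ℕ) (E : Finset k) : k[X] := A m E + B m E

/-- `Y = A - B` -/
noncomputable def Yp (m : ℕ) (E : Finset k) : k[X] := A m E - B m E

theorem Xp_sq_sub_Yp_sq {m : ℕ} (hm : Odd m) {ζ₀ : k} (hζ : IsPrimitiveRoot ζ₀ m) (E : Finset k) :
    Xp m E ^ 2 - Yp m E ^ 2 = 4 * (X ^ (2 * m) - 1) := by
  rw [← A_mul_B hm hζ E, Xp, Yp]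
  ring

theorem A_coeff {m : ℕ} {ζ₀ : k} (hζ : IsPrimitiveRoot ζ₀ m) (E : Finset k) :
    (A m E).coeff m = 1 := by
  have := (A_monic m E).coeff_natDegree
  rwa [natDegree_A hζ] at this

theorem B_coeff {m : ℕ} {ζ₀ : k} (hζ : IsPrimitiveRoot ζ₀ m) (E : Finset k) :
    (B m E).coeff m = 1 := by
  have := (B_monic m E).coeff_natDegree
  rwa [natDegree_B hζ] at this

theorem Xp_coeff {m : ℕ} {ζ₀ : k} (hζ : IsPrimitiveRoot ζ₀ m) (E : Finset k) :
    (Xp m E).coeff m = 2 := by
  rw [Xp, coeff_add, A_coeff hζ, B_coeff hζ]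
  norm_num

theorem Xp_natDegree {m : ℕ} {ζ₀ : k} (hζ : IsPrimitiveRoot ζ₀ m) (E : Finset k) :
    (Xp m E).natDegree ≤ m := by
  refine (natDegree_add_le _ _).trans ?_
  rw [natDegree_A hζ, natDegree_B hζ, max_self]

theorem Yp_natDegree {m : ℕ} {ζ₀ : k} (hζ : IsPrimitiveRoot ζ₀ m) (E : Finset k) :
    (Yp m E).natDegree ≤ m - 1 := by
  have h3 : (Yp m E).natDegree ≤ m := by
    refine (natDegree_sub_le _ _).trans ?_
    rw [natDegree_A hζ, natDegree_B hζ, max_self]
  by_contra hcon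
  have h4 : (Yp m E).natDegree = m := by omega
  have h5 : (Yp m E).coeff m = 0 := by rw [Yp, coeff_sub, A_coeff hζ, B_coeff hζ, sub_self]
  have h6 : Yp m E = 0 := by
    rw [← leadingCoeff_eq_zero, leadingCoeff, h4, h5]
  rw [h6] at hcon
  simp at hcon

/-- the quotient of `Xp` by the variable -/
noncomputable def Xq (m : ℕ) (E : Finset k) : k[X] := (Xp m E).divX

theorem Xp_eq {m : ℕ} (hm : Odd m) {ζ₀ : k} (hζ : IsPrimitiveRoot ζ₀ m) (E : Finset k) :
    Xp m E = X * Xq m E := by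
  have h := X_mul_divX_add (Xp m E)
  have h0 : (Xp m E).coeff 0 = 0 := by
    rw [coeff_zero_eq_eval_zero, Xp, eval_add]
    exact eval_zero_add hm hζ E
  rw [h0, C_0, add_zero] at h
  exact h.symm

theorem Xq_natDegree {m : ℕ} {ζ₀ : k} (hζ : IsPrimitiveRoot ζ₀ m) (E : Finset k) :
    (Xq m E).natDegree ≤ m - 1 := by
  rw [Xq, natDegree_divX_eq_natDegree_tsub_one]
  exact Nat.sub_le_sub_right (Xp_natDegree hζ E) 1

theorem one_mem {m : ℕ} (hm : Odd m) : (1 : k) ∈ nthRootsFinset m (1 : k) := by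
  rw [Polynomial.mem_nthRootsFinset hm.pos, one_pow]

theorem Yp_ne_zero [CharZero k] {m : ℕ} (hm : Odd m) {E : Finset k} (h1 : 1 ∈ E) :
    Yp m E ≠ 0 := by
  intro h
  have h2 : (Yp m E).eval 1 = 0 := by rw [h, eval_zero]
  rw [Yp, eval_sub, eval_A_of_mem (one_mem hm) h1, zero_sub, neg_eq_zero] at h2
  exact eval_B_of_mem hm (one_mem hm) h1 h2

theorem Xp_ne_zero [CharZero k] {m : ℕ} {ζ₀ : k} (hζ : IsPrimitiveRoot ζ₀ m) (E : Finset k) :
    Xp m E ≠ 0 := by
  intro h
  have := Xp_coeff hζ E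
  rw [h] at this
  simp at this

/-- `E ∋ 1` can be recovered from `(Xp m E) ^ 2` -/
theorem Xp_sq_inj [CharZero k] {m : ℕ} (hm : Odd m) {ζ₀ : k} (hζ : IsPrimitiveRoot ζ₀ m)
    {E E' : Finset k} (hE : E ⊆ nthRootsFinset m (1 : k)) (hE' : E' ⊆ nthRootsFinset m (1 : k))
    (h1 : 1 ∈ E) (h1' : 1 ∈ E') (h : Xp m E ^ 2 = Xp m E' ^ 2) : E = E' := by
  have hX : Xp m E = Xp m E' := by
    rcases sq_eq_sq_iff_eq_or_eq_neg.1 h with h | h
    · exact h
    · exfalso
      have := congrArg (fun p => coeff p m) h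
      simp only [coeff_neg, Xp_coeff hζ] at this
      have h4 : (4 : k) = 0 := by linear_combination this
      norm_num at h4
  have hY2 : Yp m E ^ 2 = Yp m E' ^ 2 := by
    have e1 := Xp_sq_sub_Yp_sq hm hζ E
    have e2 := Xp_sq_sub_Yp_sq hm hζ E'
    rw [hX] at e1
    linear_combination e2 - e1
  have h20 : (2 : k[X]) ≠ 0 := by
    intro h
    have := congrArg (eval 0) h
    simp at this
  have hA : A m E = A m E' := by
    rcases sq_eq_sq_iff_eq_or_eq_neg.1 hY2 with hY | hY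
    · have h2 : (2 : k[X]) * A m E = 2 * A m E' := by
        have := congrArg₂ (· + ·) hX hY
        simp only [Xp, Yp] at this
        linear_combination this
      exact mul_left_cancel₀ h20 h2
    · exfalso
      have h2 : (2 : k[X]) * A m E = 2 * B m E' := by
        have := congrArg₂ (· + ·) hX hY
        simp only [Xp, Yp] at this
        linear_combination this
      have h3 := mul_left_cancel₀ h20 h2
      have h4 : (B m E').eval 1 = 0 := by rw [← h3, eval_A_of_mem (one_mem hm) h1]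
      exact eval_B_of_mem hm (one_mem hm) h1' h4
  ext ζ
  constructor
  · intro h
    by_contra hcon
    exact eval_A_of_notMem hm (hE h) hcon (hA ▸ eval_A_of_mem (hE h) h)
  · intro h
    by_contra hcon
    exact eval_A_of_notMem hm (hE' h) hcon (hA ▸ eval_A_of_mem (hE' h) h)

/-- the sets `E` of `m`-th roots of unity containing `1` -/
noncomputable def idx (k : Type*) [Field k] [DecidableEq k] (m : ℕ) : Finset (Finset k) :=
  (((nthRootsFinset m (1 : k)).erase 1).powerset).image (insert 1)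

theorem mem_idx {m : ℕ} (hm : Odd m) {E : Finset k} (h : E ∈ idx k m) :
    E ⊆ nthRootsFinset m (1 : k) ∧ 1 ∈ E := by
  obtain ⟨S, hS, rfl⟩ := mem_image.1 h
  rw [mem_powerset] at hS
  refine ⟨insert_subset (one_mem hm) (hS.trans (erase_subset _ _)), mem_insert_self _ _⟩

theorem card_idx {m : ℕ} (hm : Odd m) {ζ₀ : k} (hζ : IsPrimitiveRoot ζ₀ m) :
    (idx k m).card = 2 ^ (m - 1) := by
  rw [idx, card_image_of_injOn, card_powerset, card_erase_of_mem (one_mem hm),
    hζ.card_nthRootsFinset]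
  intro S hS T hT h
  simp only [coe_powerset, Set.mem_preimage, Set.mem_powerset_iff, coe_subset] at hS hT
  have hS1 : (1 : k) ∉ S := fun h => by simpa using hS h
  have hT1 : (1 : k) ∉ T := fun h => by simpa using hT h
  rw [← erase_insert hS1, ← erase_insert hT1, h]

end Pool.Agent.W222.ABCD.RU
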